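import Pool.Agent.Lib.MP_b9b22b_co.Lin.Base

/-!
GRAPH: from a system of copies of a template to a graph with large eigenvalues.
-/

set_option autoImplicit false

namespace Pool.Agent.Lib.MP_b9b22b_co.Lin.H63

open Finset

/-- The entries of the Sylvester matrix. -/
def syl (b b' : Bool) : ℝ := if b && b' then -1 else 1

theorem syl_pm (b b' : Bool) : syl b b' = 1 ∨ syl b b' = -1 := by
  cases b <;> cases b' <;> simp [syl]

theorem syl_row (b b' : Bool) : ∑ c, syl b c * syl b' c = if b = b' then 2 else 0 := by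
  cases b <;> cases b' <;> simp [syl] <;> norm_num

theorem sum_pi_bool {a : ℕ} (F : Fin a → Bool → ℝ) :
    ∑ x : Fin a → Bool, ∏ i, F i (x i) = ∏ i, ∑ b, F i b := by
  rw [Finset.prod_univ_sum, Fintype.piFinset_univ]

theorem prod_pm {a : ℕ} (f : Fin a → ℝ) (h : ∀ i, f i = 1 ∨ f i = -1) :
    ∏ i, f i = 1 ∨ ∏ i, f i = -1 := by
  refine Finset.prod_induction f (fun x => x = 1 ∨ x = -1) ?_ (Or.inl rfl) (fun i _ => h i)
  rintro x y (rfl | rfl) (rfl | rfl) <;> norm_num

theorem exists_had (a : ℕ) : ∃ H : Fin (2 ^ a) → Fin (2 ^ a) → ℝ,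
    (∀ r j, H r j = 1 ∨ H r j = -1) ∧
    ∀ r r', ∑ j, H r j * H r' j = if r = r' then (2 : ℝ) ^ a else 0 := by
  classical
  have hc : Fintype.card (Fin (2 ^ a)) = Fintype.card (Fin a → Bool) := by simp
  let e : Fin (2 ^ a) ≃ (Fin a → Bool) := Fintype.equivOfCardEq hc
  refine ⟨fun r j => ∏ i, syl (e r i) (e j i), fun r j => prod_pm _ fun i => syl_pm _ _, ?_⟩
  intro r r'
  have h1 : ∑ j, (∏ i, syl (e r i) (e j i)) * (∏ i, syl (e r' i) (e j i)) =
      ∑ x : Fin a → Bool, ∏ i, (syl (e r i) (x i) * syl (e r' i) (x i)) := by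
    rw [← e.sum_comp (fun x : Fin a → Bool => ∏ i, (syl (e r i) (x i) * syl (e r' i) (x i)))]
    refine Finset.sum_congr rfl fun j _ => ?_
    rw [Finset.prod_mul_distrib]
  rw [h1, sum_pi_bool (fun i b => syl (e r i) b * syl (e r' i) b)]
  simp_rw [syl_row]
  by_cases h : r = r'
  · subst h
    simp
  · rw [if_neg h]
    have : ∃ i, e r i ≠ e r' i := by
      by_contra hcon
      push Not at hcon
      exact h (e.injective (funext hcon))
    obtain ⟨i, hi⟩ := this
    exact Finset.prod_eq_zero (Finset.mem_univ i) (if_neg hi)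

/-- sums over classes are positive semidefinite -/
theorem cls_nonneg {V : Type*} [Fintype V] (f : V → ℕ) (x : V → ℝ) :
    0 ≤ ∑ v, ∑ w, (if f v = f w then x v * x w else 0) := by
  classical
  have h : ∑ v, ∑ w, (if f v = f w then x v * x w else 0) =
      ∑ m ∈ univ.image f, (∑ v, if f v = m then x v else 0) ^ 2 := by
    have h1 : ∀ m, (∑ v, if f v = m then x v else 0) ^ 2 =
        ∑ v, ∑ w, (if f v = m then x v else 0) * (if f w = m then x w else 0) := by
      intro m
      rw [sq, Finset.sum_mul_sum]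
    symm
    simp_rw [h1]
    rw [Finset.sum_comm]
    refine Finset.sum_congr rfl fun v _ => ?_
    rw [Finset.sum_comm]
    refine Finset.sum_congr rfl fun w _ => ?_
    rw [Finset.sum_eq_single (f v)]
    · rw [if_pos rfl]
      by_cases h2 : f v = f w
      · rw [if_pos h2, if_pos h2.symm]
      · rw [if_neg h2, if_neg (fun h3 => h2 h3.symm), mul_zero]
    · intro m _ hm
      rw [if_neg (fun h3 => hm h3.symm), zero_mul]
    · intro h3
      exact absurd (Finset.mem_image_of_mem f (Finset.mem_univ v)) h3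
  rw [h]
  exact Finset.sum_nonneg fun m _ => sq_nonneg _

open scoped Classical in
/-- transfer to `Fin n` -/
theorem big_of {V I : Type} [Fintype V] [Fintype I] {n i : ℕ} (e : V ≃ Fin n) (e' : Fin i ≃ I)
    (G : SimpleGraph V) (L : (I → ℝ) →ₗ[ℝ] (V → ℝ)) (hL : Function.Injective L) {θ : ℝ}
    (h : ∀ f, θ * ∑ v, (L f v) ^ 2 ≤ ∑ v, ∑ w, (if G.Adj v w then L f v * L f w else 0)) :
    Big n i θ := by
  refine ⟨G.comap e.symm, (LinearMap.funLeft ℝ ℝ e.symm) ∘ₗ L ∘ₗ (LinearMap.funLeft ℝ ℝ e'.symm),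
    ?_, ?_⟩
  · intro f g hfg
    have h1 : L (f ∘ e'.symm) = L (g ∘ e'.symm) := by
      funext v
      have := congrFun hfg (e v)
      change L (f ∘ e'.symm) (e.symm (e v)) = L (g ∘ e'.symm) (e.symm (e v)) at this
      rwa [Equiv.symm_apply_apply] at this
    have h2 := hL h1
    funext j
    have := congrFun h2 (e' j)
    simpa using this
  · intro f
    have h1 := h (f ∘ e'.symm)
    have e1 : ∀ v, ((LinearMap.funLeft ℝ ℝ e.symm) ∘ₗ L ∘ₗ (LinearMap.funLeft ℝ ℝ e'.symm)) f v =
        L (f ∘ e'.symm) (e.symm v) := fun v => rfl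
    simp_rw [e1]
    rw [e.symm.sum_comp (fun v => L (f ∘ e'.symm) v ^ 2)]
    refine h1.trans (le_of_eq ?_)
    rw [← e.symm.sum_comp (fun v => ∑ w, (if G.Adj v w then L (f ∘ e'.symm) v *
      L (f ∘ e'.symm) w else 0))]
    refine Finset.sum_congr rfl fun v _ => ?_
    rw [← e.symm.sum_comp (fun w => (if G.Adj (e.symm v) w then L (f ∘ e'.symm) (e.symm v) *
      L (f ∘ e'.symm) w else 0))]
    refine Finset.sum_congr rfl fun w _ => ?_
    simp only [SimpleGraph.comap_adj]

theorem exists_port {k : ℕ} {R : Fin k → Fin k → Prop} {v c r N : ℕ} (Z : Sys k R v c r)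
    (hr : r ≤ N) : ∃ port : Fin c × Fin k → Fin N,
      ∀ x x', Z.pl x.1 x.2 = Z.pl x'.1 x'.2 → port x = port x' → x = x' := by
  classical
  have h1 : ∀ g, Nonempty ({x : Fin c × Fin k // Z.pl x.1 x.2 = g} ↪ Fin N) := by
    intro g
    apply Function.Embedding.nonempty_of_card_le
    rw [Fintype.card_fin, Fintype.card_subtype]
    refine le_trans (le_of_eq ?_) ((Z.port g).trans hr)
    congr
  let e : ∀ g, {x : Fin c × Fin k // Z.pl x.1 x.2 = g} ↪ Fin N := fun g => Classical.choice (h1 g)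
  refine ⟨fun x => e (Z.pl x.1 x.2) ⟨x, rfl⟩, ?_⟩
  intro x x' hx hp
  have key : ∀ (g : Fin v) (hx : Z.pl x.1 x.2 = g) (hx' : Z.pl x'.1 x'.2 = g),
      e g ⟨x, hx⟩ = e g ⟨x', hx'⟩ → x = x' := by
    intro g h2 h3 h4
    have := (e g).injective h4
    exact congrArg Subtype.val this
  have h5 : e (Z.pl x'.1 x'.2) ⟨x', rfl⟩ = e (Z.pl x.1 x.2) ⟨x', hx.symm⟩ := by
    have : ∀ (g : Fin v) (hg : Z.pl x'.1 x'.2 = g), e (Z.pl x'.1 x'.2) ⟨x', rfl⟩ = e g ⟨x', hg⟩ := by
      intro g hg
      subst hg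
      rfl
    exact this _ hx.symm
  simp only [] at hp
  exact key (Z.pl x.1 x.2) rfl hx.symm (hp.trans h5)

theorem graph : GraphStatement := by
  classical
  rintro p q T v c r a ⟨Z⟩ hr
  obtain ⟨port, hport⟩ := exists_port Z hr
  obtain ⟨H, hH, hHo⟩ := exists_had a
  -- the port vectors
  let u : Fin c × Fin T.k → (Fin v × Fin (2 ^ a) → ℝ) :=
    fun x y => if Z.pl x.1 x.2 = y.1 then H (port x) y.2 else 0
  have hu : ∀ x x', ∑ y, u x y * u x' y = if x = x' then (2 : ℝ) ^ a else 0 := by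
    intro x x'
    rw [Fintype.sum_prod_type]
    by_cases hg : Z.pl x.1 x.2 = Z.pl x'.1 x'.2
    · rw [Finset.sum_eq_single (Z.pl x.1 x.2)]
      · have h1 : ∀ j, u x (Z.pl x.1 x.2, j) * u x' (Z.pl x.1 x.2, j) =
            H (port x) j * H (port x') j := by
          intro j
          simp only [u, if_pos rfl, if_pos hg.symm]
        simp_rw [h1, hHo]
        by_cases hxx : x = x'
        · rw [if_pos hxx, if_pos (by rw [hxx])]
        · rw [if_neg hxx, if_neg (fun h => hxx (hport x x' hg h))]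
      · intro g _ hne
        refine Finset.sum_eq_zero fun j _ => ?_
        have : u x (g, j) = 0 := by simp only [u]; rw [if_neg (fun h => hne h.symm)]
        rw [this, zero_mul]
      · intro h; exact absurd (Finset.mem_univ _) h
    · have hxx : x ≠ x' := fun h => hg (by rw [h])
      rw [if_neg hxx]
      refine Finset.sum_eq_zero fun g _ => Finset.sum_eq_zero fun j _ => ?_
      by_cases h1 : Z.pl x.1 x.2 = g
      · have : u x' (g, j) = 0 := by
          simp only [u]; rw [if_neg (fun h => hg (h1.trans h.symm))]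
        rw [this, mul_zero]
      · have : u x (g, j) = 0 := by simp only [u]; rw [if_neg h1]
        rw [this, zero_mul]
  -- the matrix S0
  let K : Fin v × Fin (2 ^ a) → Fin v × Fin (2 ^ a) → ℝ := fun y z =>
    ∑ t : Fin c × Fin T.k × Fin T.k, (T.E t.2.1 t.2.2 : ℝ) * (u (t.1, t.2.1) y * u (t.1, t.2.2) z)
  have hKterm : ∀ y z (t : Fin c × Fin T.k × Fin T.k),
      ¬ (T.E t.2.1 t.2.2 ≠ 0 ∧ Z.pl t.1 t.2.1 = y.1 ∧ Z.pl t.1 t.2.2 = z.1) →
        (T.E t.2.1 t.2.2 : ℝ) * (u (t.1, t.2.1) y * u (t.1, t.2.2) z) = 0 := by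
    intro y z t ht
    by_cases h1 : T.E t.2.1 t.2.2 = 0
    · rw [h1]; simp
    · by_cases h2 : Z.pl t.1 t.2.1 = y.1
      · by_cases h3 : Z.pl t.1 t.2.2 = z.1
        · exact absurd ⟨h1, h2, h3⟩ ht
        · have : u (t.1, t.2.2) z = 0 := by simp only [u]; rw [if_neg h3]
          rw [this]; ring
      · have : u (t.1, t.2.1) y = 0 := by simp only [u]; rw [if_neg h2]
        rw [this]; ring
  have hK0 : ∀ y z, Z.cls y.1 = Z.cls z.1 → K y z = 0 := by
    intro y z hyz
    refine Finset.sum_eq_zero fun t _ => hKterm y z t ?_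
    rintro ⟨h1, h2, h3⟩
    exact Z.sep t.1 t.2.1 t.2.2 h1 (by rw [h2, h3, hyz])
  have hK1 : ∀ y z, Z.cls y.1 ≠ Z.cls z.1 → K y z = 1 ∨ K y z = -1 := by
    intro y z hyz
    obtain ⟨t, ht, huniq⟩ := Z.cov y.1 z.1 hyz
    have h1 : K y z = (T.E t.2.1 t.2.2 : ℝ) * (u (t.1, t.2.1) y * u (t.1, t.2.2) z) := by
      refine Finset.sum_eq_single t (fun t' _ hne => hKterm y z t' fun h => hne (huniq t' h)) ?_
      intro h; exact absurd (Finset.mem_univ _) h
    obtain ⟨h2, h3, h4⟩ := ht
    have h5 : u (t.1, t.2.1) y = H (port (t.1, t.2.1)) y.2 := by simp only [u]; rw [if_pos h3]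
    have h6 : u (t.1, t.2.2) z = H (port (t.1, t.2.2)) z.2 := by simp only [u]; rw [if_pos h4]
    rw [h1, h5, h6]
    rcases T.small t.2.1 t.2.2 with h7 | h7 | h7
    · exact absurd h7 h2
    · rcases hH (port (t.1, t.2.1)) y.2 with h8 | h8 <;>
        rcases hH (port (t.1, t.2.2)) z.2 with h9 | h9 <;> rw [h7, h8, h9] <;> norm_num
    · rcases hH (port (t.1, t.2.1)) y.2 with h8 | h8 <;>
        rcases hH (port (t.1, t.2.2)) z.2 with h9 | h9 <;> rw [h7, h8, h9] <;> norm_num
  have hKs : ∀ y z, K y z = K z y := by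
    intro y z
    simp only [K]
    rw [Fintype.sum_prod_type, Fintype.sum_prod_type]
    refine Finset.sum_congr rfl fun i _ => ?_
    rw [Fintype.sum_prod_type, Fintype.sum_prod_type, Finset.sum_comm]
    refine Finset.sum_congr rfl fun x _ => Finset.sum_congr rfl fun x' _ => ?_
    simp only []
    rw [T.symm x' x]
    ring
  -- the graph
  let G : SimpleGraph (Fin v × Fin (2 ^ a)) :=
    { Adj := fun y z => y ≠ z ∧ (Z.cls y.1 = Z.cls z.1 ∨ K y z = 1)
      symm := ⟨fun y z h => ⟨h.1.symm, by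
        rcases h.2 with h1 | h1
        · exact Or.inl h1.symm
        · exact Or.inr (by rw [hKs z y]; exact h1)⟩⟩
      loopless := ⟨fun y h => h.1 rfl⟩ }
  have hG : ∀ y z, G.Adj y z ↔ (y ≠ z ∧ (Z.cls y.1 = Z.cls z.1 ∨ K y z = 1)) := fun y z => Iff.rfl
  have hA : ∀ y z, (if G.Adj y z then (1 : ℝ) else 0) =
      (1 + (if Z.cls y.1 = Z.cls z.1 then 1 else 0) + K y z) / 2 - (if y = z then 1 else 0) := by
    intro y z
    by_cases hyz : y = z
    · subst hyz
      rw [if_neg (fun h => h.1 rfl), if_pos rfl, if_pos rfl, hK0 y y rfl]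
      norm_num
    · rw [if_neg hyz]
      by_cases hc : Z.cls y.1 = Z.cls z.1
      · rw [if_pos ((hG y z).2 ⟨hyz, Or.inl hc⟩), if_pos hc, hK0 y z hc]
        norm_num
      · rw [if_neg hc]
        rcases hK1 y z hc with h1 | h1
        · rw [if_pos ((hG y z).2 ⟨hyz, Or.inr h1⟩), h1]; norm_num
        · rw [if_neg, h1]
          · norm_num
          · rintro ⟨-, h2 | h2⟩
            · exact hc h2
            · rw [h1] at h2; norm_num at h2
  -- the form of G
  have hform : ∀ x : Fin v × Fin (2 ^ a) → ℝ,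
      (∑ y, ∑ z, K y z * (x y * x z)) / 2 - ∑ y, x y ^ 2 ≤
        ∑ y, ∑ z, (if G.Adj y z then x y * x z else 0) := by
    intro x
    have e1 : ∀ y z, (if G.Adj y z then x y * x z else 0) =
        (x y * x z) / 2 + (if Z.cls y.1 = Z.cls z.1 then x y * x z else 0) / 2 +
          (K y z * (x y * x z)) / 2 - (if y = z then x y * x z else 0) := by
      intro y z
      have h1 := hA y z
      have h2 : (if G.Adj y z then x y * x z else 0) =
          (if G.Adj y z then (1 : ℝ) else 0) * (x y * x z) := by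
        by_cases h : G.Adj y z
        · rw [if_pos h, if_pos h, one_mul]
        · rw [if_neg h, if_neg h, zero_mul]
      rw [h2, h1]
      by_cases h3 : Z.cls y.1 = Z.cls z.1 <;> by_cases h4 : y = z
      · rw [if_pos h3, if_pos h3, if_pos h4, if_pos h4]; ring
      · rw [if_pos h3, if_pos h3, if_neg h4, if_neg h4]; ring
      · rw [if_neg h3, if_neg h3, if_pos h4, if_pos h4]; ring
      · rw [if_neg h3, if_neg h3, if_neg h4, if_neg h4]; ring
    simp_rw [e1, Finset.sum_sub_distrib, Finset.sum_add_distrib]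
    have e2 : ∑ y, ∑ z, x y * x z / 2 = (∑ y, x y) ^ 2 / 2 := by
      rw [sq, Finset.sum_mul_sum, Finset.sum_div]
      refine Finset.sum_congr rfl fun y _ => ?_
      rw [Finset.sum_div]
    have e3 : ∑ y, ∑ z, (if Z.cls y.1 = Z.cls z.1 then x y * x z else 0) / 2 =
        (∑ y, ∑ z, (if Z.cls y.1 = Z.cls z.1 then x y * x z else 0)) / 2 := by
      rw [Finset.sum_div]
      refine Finset.sum_congr rfl fun y _ => ?_
      rw [Finset.sum_div]
    have e4 : ∑ y, ∑ z, K y z * (x y * x z) / 2 = (∑ y, ∑ z, K y z * (x y * x z)) / 2 := by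
      rw [Finset.sum_div]
      refine Finset.sum_congr rfl fun y _ => ?_
      rw [Finset.sum_div]
    have e5 : ∑ y, ∑ z, (if y = z then x y * x z else 0) = ∑ y, x y ^ 2 := by
      refine Finset.sum_congr rfl fun y _ => ?_
      rw [Finset.sum_ite_eq, if_pos (Finset.mem_univ y), sq]
    rw [e2, e3, e4, e5]
    have h1 := cls_nonneg (fun y : Fin v × Fin (2 ^ a) => Z.cls y.1) x
    have h2 := sq_nonneg (∑ y, x y)
    linarith
  -- the linear maps
  let F : (Fin c × Fin T.w → ℝ) →ₗ[ℝ] (Fin c × Fin T.k → ℝ) :=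
    { toFun := fun f x => T.L (fun j => f (x.1, j)) x.2
      map_add' := by
        intro f g
        funext x
        have : (fun j => (f + g) (x.1, j)) = (fun j => f (x.1, j)) + (fun j => g (x.1, j)) := rfl
        change T.L (fun j => (f + g) (x.1, j)) x.2 = _
        rw [this, map_add]
        rfl
      map_smul' := by
        intro r f
        funext x
        have : (fun j => (r • f) (x.1, j)) = r • (fun j => f (x.1, j)) := rfl
        change T.L (fun j => (r • f) (x.1, j)) x.2 = _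
        rw [this, map_smul]
        rfl }
  have hF : ∀ f x, F f x = T.L (fun j => f (x.1, j)) x.2 := fun f x => rfl
  let U : (Fin c × Fin T.k → ℝ) →ₗ[ℝ] (Fin v × Fin (2 ^ a) → ℝ) := Fintype.linearCombination ℝ u
  have hU : ∀ h y, U h y = ∑ x, h x * u x y := by
    intro h y
    simp only [U, Fintype.linearCombination_apply, Finset.sum_apply, Pi.smul_apply, smul_eq_mul]
  have hpair : ∀ h x, ∑ y, u x y * U h y = 2 ^ a * h x := by
    intro h x
    simp_rw [hU, Finset.mul_sum]
    rw [Finset.sum_comm]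
    have e1 : ∀ x', ∑ y, u x y * (h x' * u x' y) = h x' * (if x = x' then (2 : ℝ) ^ a else 0) := by
      intro x'
      rw [← hu x x', Finset.mul_sum]
      refine Finset.sum_congr rfl fun y _ => ?_
      ring
    simp_rw [e1]
    rw [Finset.sum_eq_single x]
    · rw [if_pos rfl]; ring
    · intro x' _ hne; rw [if_neg (fun h' => hne h'.symm), mul_zero]
    · intro h'; exact absurd (Finset.mem_univ _) h'
  have hnorm : ∀ h, ∑ y, U h y ^ 2 = 2 ^ a * ∑ x, h x ^ 2 := by
    intro h
    have e1 : ∀ y, U h y ^ 2 = ∑ x, h x * (u x y * U h y) := by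
      intro y
      rw [sq]
      conv_lhs => rw [hU h y]
      rw [Finset.sum_mul]
      refine Finset.sum_congr rfl fun x _ => ?_
      rw [hU h y]; ring
    simp_rw [e1]
    rw [Finset.sum_comm, Finset.mul_sum]
    refine Finset.sum_congr rfl fun x _ => ?_
    rw [← Finset.mul_sum, hpair]; ring
  have hquad : ∀ f, ∑ y, ∑ z, K y z * (U (F f) y * U (F f) z) =
      (2 ^ a) ^ 2 * (((q : ℝ) - p) * ∑ x, F f x ^ 2) := by
    intro f
    have e1 : ∑ y, ∑ z, K y z * (U (F f) y * U (F f) z) =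
        ∑ t : Fin c × Fin T.k × Fin T.k, (T.E t.2.1 t.2.2 : ℝ) *
          ((∑ y, u (t.1, t.2.1) y * U (F f) y) * (∑ z, u (t.1, t.2.2) z * U (F f) z)) := by
      simp only [K]
      simp_rw [Finset.sum_mul_sum, Finset.mul_sum, Finset.sum_mul]
      have e2 : ∀ y, ∑ z, ∑ t : Fin c × Fin T.k × Fin T.k,
          (T.E t.2.1 t.2.2 : ℝ) * (u (t.1, t.2.1) y * u (t.1, t.2.2) z) * (U (F f) y * U (F f) z) =
          ∑ t : Fin c × Fin T.k × Fin T.k, ∑ z,
          (T.E t.2.1 t.2.2 : ℝ) * (u (t.1, t.2.1) y * u (t.1, t.2.2) z) * (U (F f) y * U (F f) z) :=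
        fun y => Finset.sum_comm
      simp_rw [e2]
      rw [Finset.sum_comm]
      refine Finset.sum_congr rfl fun t _ => Finset.sum_congr rfl fun y _ =>
        Finset.sum_congr rfl fun z _ => ?_
      ring
    rw [e1]
    simp_rw [hpair]
    rw [Fintype.sum_prod_type, Fintype.sum_prod_type, Finset.mul_sum, Finset.mul_sum]
    refine Finset.sum_congr rfl fun i _ => ?_
    rw [Fintype.sum_prod_type, Finset.mul_sum, Finset.mul_sum]
    refine Finset.sum_congr rfl fun x _ => ?_
    have h1 := T.eig (fun j => f (i, j)) x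
    have h2 : ∑ b, (T.E x b : ℝ) * F f (i, b) = ((q : ℝ) - p) * F f (i, x) := h1
    have h3 : ∑ b, (T.E x b : ℝ) * (2 ^ a * F f (i, x) * (2 ^ a * F f (i, b))) =
        (2 ^ a) ^ 2 * F f (i, x) * ∑ b, (T.E x b : ℝ) * F f (i, b) := by
      rw [Finset.mul_sum]
      refine Finset.sum_congr rfl fun b _ => ?_
      ring
    simp only []
    rw [h3, h2]
    ring
  have hN : (0 : ℝ) < 2 ^ a := by positivity
  have hinj : Function.Injective (U ∘ₗ F) := by
    rw [← LinearMap.ker_eq_bot, LinearMap.ker_eq_bot']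
    intro f hf
    have h1 : ∑ y, U (F f) y ^ 2 = 0 := by
      refine Finset.sum_eq_zero fun y _ => ?_
      have : U (F f) y = 0 := congrFun hf y
      rw [this]; norm_num
    rw [hnorm] at h1
    have h2 : ∑ x, F f x ^ 2 = 0 := by
      rcases mul_eq_zero.1 h1 with h | h
      · exact absurd h hN.ne'
      · exact h
    have h3 : ∀ x, F f x = 0 := by
      intro x
      have := (Finset.sum_eq_zero_iff_of_nonneg (fun x _ => sq_nonneg (F f x))).1 h2 x
        (Finset.mem_univ x)
      exact pow_eq_zero_iff (by norm_num) |>.1 this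
    funext y
    have h4 : T.L (fun j => f (y.1, j)) = 0 := by
      funext b
      exact h3 (y.1, b)
    have h5 : (fun j => f (y.1, j)) = 0 := T.inj (by rw [h4, map_zero])
    exact congrFun h5 y.2
  refine big_of (V := Fin v × Fin (2 ^ a)) (I := Fin c × Fin T.w) finProdFinEquiv
    finProdFinEquiv.symm G (U ∘ₗ F) hinj ?_
  intro f
  have h1 := hform (U (F f))
  rw [hquad, hnorm] at h1
  have h2 : ∀ y, (U ∘ₗ F) f y = U (F f) y := fun y => rfl
  simp_rw [h2]
  rw [hnorm]
  refine le_trans (le_of_eq ?_) h1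
  ring

end Pool.Agent.Lib.MP_b9b22b_co.Lin.H63
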