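import Pool.Agent.Lib.MP_b9b22b_co.Lin.Base
import Pool.Agent.Lib.MP_b9b22b_co.Lin.H63.Graph
import Pool.Agent.Lib.MP_b9b22b_co.Spectral

/-!
BASIC: monotonicity, blow-up, eigenvalues, complements.
-/

set_option autoImplicit false

namespace Pool.Agent.Lib.MP_b9b22b_co.Lin.H63

open Finset Module

/-- extension by zero -/
noncomputable def ext0 {i' i : ℕ} (h : i' ≤ i) : (Fin i' → ℝ) →ₗ[ℝ] (Fin i → ℝ) :=
  Function.ExtendByZero.linearMap ℝ (Fin.castLE h)

theorem ext0_injective {i' i : ℕ} (h : i' ≤ i) : Function.Injective (ext0 h) := by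
  intro f g hfg
  funext j
  have h1 := congrFun hfg (Fin.castLE h j)
  have h2 : ∀ f : Fin i' → ℝ, ext0 h f (Fin.castLE h j) = f j := by
    intro f
    exact (Fin.castLE_injective h).extend_apply _ _ _
  rwa [h2, h2] at h1

theorem mono : MonoStatement := by
  classical
  rintro n n' i i' θ θ' hn hi hθ ⟨G, L, hL, hform⟩
  obtain ⟨m, rfl⟩ := Nat.exists_eq_add_of_le hn
  let G' : SimpleGraph (Fin n ⊕ Fin m) :=
    { Adj := fun x y => ∃ v w, x = Sum.inl v ∧ y = Sum.inl w ∧ G.Adj v w
      symm := ⟨fun x y ⟨v, w, h1, h2, h3⟩ => ⟨w, v, h2, h1, h3.symm⟩⟩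
      loopless := ⟨fun x ⟨v, w, h1, h2, h3⟩ => by
        rw [h1] at h2
        exact G.loopless.irrefl v (by rwa [← Sum.inl_injective h2] at h3)⟩ }
  have hll : ∀ v w, G'.Adj (Sum.inl v) (Sum.inl w) ↔ G.Adj v w := by
    intro v w
    constructor
    · rintro ⟨v', w', h1, h2, h3⟩
      rwa [Sum.inl_injective h1, Sum.inl_injective h2]
    · intro h
      exact ⟨v, w, rfl, rfl, h⟩
  let X : (Fin n → ℝ) →ₗ[ℝ] (Fin n ⊕ Fin m → ℝ) :=
    { toFun := fun g => Sum.elim g (fun _ => 0)
      map_add' := by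
        intro f g; funext x; cases x <;> simp
      map_smul' := by
        intro r f; funext x; cases x <;> simp }
  have hXl : ∀ g v, X g (Sum.inl v) = g v := fun g v => rfl
  have hXr : ∀ g v, X g (Sum.inr v) = 0 := fun g v => rfl
  refine big_of (V := Fin n ⊕ Fin m) (I := Fin i') finSumFinEquiv (Equiv.refl _) G'
    (X ∘ₗ L ∘ₗ ext0 hi) ?_ ?_
  · intro f g hfg
    apply ext0_injective hi
    apply hL
    funext v
    exact congrFun hfg (Sum.inl v)
  · intro f
    have h1 := hform (ext0 hi f)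
    have e1 : ∀ x, (X ∘ₗ L ∘ₗ ext0 hi) f x = X (L (ext0 hi f)) x := fun x => rfl
    simp_rw [e1, Fintype.sum_sum_type, hXl, hXr]
    simp only [hll, mul_zero, zero_mul, ite_self, Finset.sum_const_zero, add_zero, ne_eq,
      OfNat.ofNat_ne_zero, not_false_eq_true, zero_pow]
    have h2 : 0 ≤ ∑ v, L (ext0 hi f) v ^ 2 := Finset.sum_nonneg fun v _ => sq_nonneg _
    exact (mul_le_mul_of_nonneg_right hθ h2).trans h1

theorem blow : BlowStatement := by
  classical
  rintro n i t θ ht ⟨G, L, hL, hform⟩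
  let G' : SimpleGraph (Fin t × Fin n) := G.comap Prod.snd
  refine big_of (V := Fin t × Fin n) (I := Fin i) finProdFinEquiv (Equiv.refl _) G'
    ((LinearMap.funLeft ℝ ℝ (Prod.snd : Fin t × Fin n → Fin n)) ∘ₗ L) ?_ ?_
  · intro f g hfg
    apply hL
    funext v
    exact congrFun hfg (⟨0, ht⟩, v)
  · intro f
    have h1 := hform f
    have e1 : ∀ x, ((LinearMap.funLeft ℝ ℝ (Prod.snd : Fin t × Fin n → Fin n)) ∘ₗ L) f x =
      L f x.2 := fun x => rfl
    simp_rw [e1, Fintype.sum_prod_type]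
    simp only [G', SimpleGraph.comap_adj, Finset.sum_const, Finset.card_univ, Fintype.card_fin,
      nsmul_eq_mul]
    rw [← Finset.mul_sum]
    have h2 := mul_le_mul_of_nonneg_left h1 (sq_nonneg (t : ℝ))
    calc (t : ℝ) * θ * (t * ∑ v, L f v ^ 2) = (t : ℝ) ^ 2 * (θ * ∑ v, L f v ^ 2) := by ring
      _ ≤ _ := h2
      _ = _ := by ring

section General

variable {V : Type*} [Fintype V]

open scoped Classical in
theorem le_lam_of (G : SimpleGraph V) {i : ℕ} (hi : 1 ≤ i) (hcard : i ≤ Fintype.card V)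
    (L : (Fin i → ℝ) →ₗ[ℝ] (V → ℝ)) (hL : Function.Injective L) (θ : ℝ)
    (hform : ∀ f, θ * ∑ v, (L f v) ^ 2 ≤ ∑ v, ∑ w, (if G.Adj v w then L f v * L f w else 0)) :
    θ ≤ lam G i := by
  have hlt : i - 1 < Fintype.card V := by omega
  unfold lam
  rw [dif_pos hlt]
  refine le_eigenvalues₀ (adj_isHermitian G) ⟨i - 1, hlt⟩ (m := i) (by simp; omega) L hL ?_
  intro a
  refine (hform a).trans (le_of_eq ?_)
  refine Finset.sum_congr rfl fun v _ => Finset.sum_congr rfl fun w _ => ?_
  rw [SimpleGraph.adjMatrix_apply]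
  split_ifs <;> ring

open scoped Classical in
theorem lam_le_of (G : SimpleGraph V) {i : ℕ} (hi : 1 ≤ i) (hcard : i ≤ Fintype.card V)
    (L : (Fin i → ℝ) →ₗ[ℝ] (V → ℝ)) (hL : Function.Injective L) (θ : ℝ)
    (hform : ∀ f, ∑ v, ∑ w, (if G.Adj v w then L f v * L f w else 0) ≤ θ * ∑ v, (L f v) ^ 2) :
    lam G (Fintype.card V - i + 1) ≤ θ := by
  have hlt : Fintype.card V - i + 1 - 1 < Fintype.card V := by omega
  unfold lam
  rw [dif_pos hlt]
  refine eigenvalues₀_le (adj_isHermitian G) ⟨Fintype.card V - i + 1 - 1, hlt⟩ (m := i)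
    (by simp; omega) L hL ?_
  intro a
  refine (le_of_eq ?_).trans (hform a)
  refine Finset.sum_congr rfl fun v _ => Finset.sum_congr rfl fun w _ => ?_
  rw [SimpleGraph.adjMatrix_apply]
  split_ifs <;> ring

end General

theorem card_le_of_injective {n i : ℕ} (L : (Fin i → ℝ) →ₗ[ℝ] (Fin n → ℝ))
    (hL : Function.Injective L) : i ≤ n := by
  have := LinearMap.finrank_le_finrank_of_injective hL
  simpa using this

theorem lamS : LamStatement := by
  rintro n i θ hi ⟨G, L, hL, hform⟩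
  have hin := card_le_of_injective L hL
  exact ⟨hin, G, le_lam_of G hi (by rw [Fintype.card_fin]; exact hin) L hL θ hform⟩

/-- a subspace of dimension at least `i` is parametrized by `Fin i → ℝ` -/
theorem exists_param_sub {E : Type*} [AddCommGroup E] [Module ℝ E] (W : Submodule ℝ E)
    [FiniteDimensional ℝ W] {i : ℕ} (h : i ≤ finrank ℝ W) :
    ∃ M : (Fin i → ℝ) →ₗ[ℝ] E, Function.Injective M ∧ ∀ f, M f ∈ W := by
  let b := finBasis ℝ W
  refine ⟨W.subtype ∘ₗ b.equivFun.symm.toLinearMap ∘ₗ ext0 h, ?_, ?_⟩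
  · exact W.injective_subtype.comp (b.equivFun.symm.injective.comp (ext0_injective h))
  · intro f
    exact (b.equivFun.symm (ext0 h f)).2

theorem compl : ComplStatement := by
  classical
  rintro n i θ hi ⟨G, L, hL, hform⟩
  have hin := card_le_of_injective L hL
  let s : (Fin n → ℝ) →ₗ[ℝ] ℝ := Fintype.linearCombination ℝ (fun _ : Fin n => (1 : ℝ))
  have hs : ∀ x, s x = ∑ v, x v := by
    intro x
    simp [s, Fintype.linearCombination_apply]
  have hdim : i ≤ finrank ℝ (LinearMap.ker (s ∘ₗ L)) := by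
    have h1 := LinearMap.finrank_range_add_finrank_ker (s ∘ₗ L)
    have h2 : finrank ℝ (LinearMap.range (s ∘ₗ L)) ≤ 1 := by
      have := Submodule.finrank_le (LinearMap.range (s ∘ₗ L))
      simpa using this
    have h3 : finrank ℝ (Fin (i + 1) → ℝ) = i + 1 := by simp
    omega
  obtain ⟨M, hM, hMk⟩ := exists_param_sub _ hdim
  refine ⟨Gᶜ, ?_⟩
  have key := lam_le_of Gᶜ (i := i) hi (by rw [Fintype.card_fin]; omega) (L ∘ₗ M)
    (hL.comp hM) (-(1 + θ)) ?_
  · rwa [Fintype.card_fin] at key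
  · intro f
    have h0 : ∑ v, L (M f) v = 0 := by
      have := hMk f
      rw [LinearMap.mem_ker] at this
      rw [← hs]
      exact this
    have h1 := hform (M f)
    set x : Fin n → ℝ := L (M f) with hx
    have e0 : ∀ v, (L ∘ₗ M) f v = x v := fun v => rfl
    simp_rw [e0]
    have e1 : ∀ v w, (if Gᶜ.Adj v w then x v * x w else 0) =
        x v * x w - (if v = w then x v * x w else 0) - (if G.Adj v w then x v * x w else 0) := by
      intro v w
      by_cases hvw : v = w
      · subst hvw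
        rw [if_neg (Gᶜ.loopless.irrefl v), if_neg (G.loopless.irrefl v), if_pos rfl]
        ring
      · by_cases hadj : G.Adj v w
        · rw [if_neg (fun h => (SimpleGraph.compl_adj G v w).1 h |>.2 hadj), if_neg hvw,
            if_pos hadj]
          ring
        · rw [if_pos ((SimpleGraph.compl_adj G v w).2 ⟨hvw, hadj⟩), if_neg hvw, if_neg hadj]
          ring
    simp_rw [e1, Finset.sum_sub_distrib]
    have e2 : ∑ v, ∑ w, x v * x w = 0 := by
      rw [← Finset.sum_mul_sum, h0, zero_mul]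
    have e3 : ∑ v, ∑ w, (if v = w then x v * x w else 0) = ∑ v, x v ^ 2 := by
      refine Finset.sum_congr rfl fun v _ => ?_
      rw [Finset.sum_ite_eq, if_pos (Finset.mem_univ v), sq]
    rw [e2, e3]
    linarith

end Pool.Agent.Lib.MP_b9b22b_co.Lin.H63
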