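import Pool.Agent.Lib.MP_b9b22b_co.Lin.Base
import Pool.Agent.Lib.MP_b9b22b_co.Relative

/-!
FINAL: the asymptotic values of `M_i(n)` and `m_i(n)`.
-/

set_option autoImplicit false

namespace Pool.Agent.Lib.MP_b9b22b_co.Lin.H63

open Finset

theorem upper_real {N I ε : ℝ} (hε : 0 < ε) (hN : I < N) (hI : 1 < I)
    (h1 : 1 ≤ ε / 2 * (N - I)) (h2 : 1 ≤ ε / 2 * (I - 1)) :
    (√((N - 1) * (N - I + 1) / (I - 1)) - 1) / 2 ≤ (1 + ε) * (√(N * (N - I) / I) / 2) := by
  have hI1 : 0 < I - 1 := by linarith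
  have hNI : 0 < N - I := by linarith
  have hA : (N - 1) * (N - I + 1) / (I - 1) ≤ (1 + ε) ^ 2 * (N * (N - I) / I) := by
    have hI0 : 0 < I := by linarith
    rw [div_le_iff₀ hI1]
    have e1 : (1 + ε) ^ 2 * (N * (N - I) / I) * (I - 1) =
        ((1 + ε) ^ 2 * (N * (N - I) * (I - 1))) / I := by
      field_simp
    rw [e1, le_div_iff₀ hI0]
    have a1 : N - I + 1 ≤ (1 + ε) * (N - I) := by nlinarith
    have a2 : I ≤ (1 + ε) * (I - 1) := by nlinarith
    have a3 : (N - 1) * (N - I + 1) * I ≤ N * ((1 + ε) * (N - I)) * ((1 + ε) * (I - 1)) := by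
      have hN0 : 0 < N := by linarith
      apply mul_le_mul _ a2 hI0.le (by positivity)
      exact mul_le_mul (by linarith) a1 (by linarith) (by linarith)
    calc (N - 1) * (N - I + 1) * I ≤ _ := a3
      _ = (1 + ε) ^ 2 * (N * (N - I) * (I - 1)) := by ring
  have hB : √((N - 1) * (N - I + 1) / (I - 1)) ≤ (1 + ε) * √(N * (N - I) / I) := by
    have := Real.sqrt_le_sqrt hA
    rwa [Real.sqrt_mul (by positivity), Real.sqrt_sq (by linarith)] at this
  linarith

theorem lower_real {N I ε : ℝ} (hε : 0 < ε) (hN : I < N) (hI : 1 ≤ I)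
    (h1 : 1 ≤ ε ^ 2 * I) :
    (√((N - 1) * (I - 1) / (N - I + 1)) + 1) / 2 ≤ (1 + ε) * (√(N * I / (N - I)) / 2) := by
  have hNI : 0 < N - I := by linarith
  have hA : (N - 1) * (I - 1) / (N - I + 1) ≤ N * I / (N - I) := by
    apply div_le_div₀
    · nlinarith
    · nlinarith
    · exact hNI
    · linarith
  have hB := Real.sqrt_le_sqrt hA
  have hC : 1 ≤ ε * √(N * I / (N - I)) := by
    have h2 : I ≤ N * I / (N - I) := by
      rw [le_div_iff₀ hNI]
      nlinarith
    have h3 : √I ≤ √(N * I / (N - I)) := Real.sqrt_le_sqrt h2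
    have h4 : 1 ≤ ε * √I := by
      have h5 : √(ε ^ 2 * I) = ε * √I := by
        rw [Real.sqrt_mul (by positivity), Real.sqrt_sq hε.le]
      rw [← h5]
      exact Real.one_le_sqrt.2 h1
    nlinarith
  linarith

theorem compl_real {N I ε : ℝ} (hε : 0 < ε) (hε1 : ε < 1) (hN : I < N) (hI : 2 < I)
    (h1 : 4 ≤ ε * I) (h2 : 4 ≤ ε * (N - I + 2)) :
    (1 - ε) * (√(N * I / (N - I)) / 2) ≤
      (1 - ε / 2) * √(N * (N - (N - I + 2)) / (N - I + 2)) / 2 := by
  have hNI : 0 < N - I := by linarith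
  have e0 : N - (N - I + 2) = I - 2 := by ring
  rw [e0]
  have hA : (1 - ε) ^ 2 * (N * I / (N - I)) ≤ (1 - ε / 2) ^ 2 * (N * (I - 2) / (N - I + 2)) := by
    have hM : 0 < N - I + 2 := by linarith
    have a1 : (1 - ε / 2) * I ≤ I - 2 := by linarith
    have a2 : (1 - ε / 2) * (N - I + 2) ≤ N - I := by linarith
    have a3 : (1 - ε) ≤ (1 - ε / 2) * (1 - ε / 2) := by nlinarith [sq_nonneg ε]
    rw [← mul_div_assoc, ← mul_div_assoc, div_le_div_iff₀ hNI hM]
    have hN0 : 0 < N := by linarith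
    have hI0 : 0 < I := by linarith
    have h1ε : 0 ≤ 1 - ε := by linarith
    have h2ε : 0 < 1 - ε / 2 := by linarith
    calc (1 - ε) ^ 2 * (N * I) * (N - I + 2) =
        N * (((1 - ε) * I) * ((1 - ε) * (N - I + 2))) := by ring
      _ ≤ N * (((1 - ε / 2) * ((1 - ε / 2) * I)) * ((1 - ε / 2) * ((1 - ε / 2) * (N - I + 2)))) := by
          apply mul_le_mul_of_nonneg_left _ hN0.le
          apply mul_le_mul
          · nlinarith
          · nlinarith
          · positivity
          · positivity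
      _ ≤ N * (((1 - ε / 2) * (I - 2)) * ((1 - ε / 2) * (N - I))) := by
          apply mul_le_mul_of_nonneg_left _ hN0.le
          apply mul_le_mul
          · exact mul_le_mul_of_nonneg_left a1 h2ε.le
          · exact mul_le_mul_of_nonneg_left a2 h2ε.le
          · positivity
          · have : 0 < I - 2 := by linarith
            positivity
      _ = (1 - ε / 2) ^ 2 * (N * (I - 2)) * (N - I) := by ring
  have hB := Real.sqrt_le_sqrt hA
  rw [Real.sqrt_mul (by positivity), Real.sqrt_sq (by linarith), Real.sqrt_mul (by positivity),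
    Real.sqrt_sq (by linarith)] at hB
  linarith

theorem final (hU : UniStatement) (hL : LamStatement) (hC : ComplStatement) : FinalStatement := by
  intro ε hε
  by_cases hε1 : 1 ≤ ε
  · refine ⟨1, fun n i => ⟨?_, ?_⟩⟩
    · intro h1 h2
      exfalso
      have h3 : (1 : ℝ) ≤ i := by exact_mod_cast h1
      have h4 : (1 - ε) * (n : ℝ) ≤ 0 :=
        mul_nonpos_of_nonpos_of_nonneg (by linarith) (Nat.cast_nonneg _)
      linarith
    · intro h1 h2
      exfalso
      have h3 : (1 : ℝ) + i ≤ n := by exact_mod_cast h1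
      have h4 : (1 : ℝ) * n ≤ ε * n := mul_le_mul_of_nonneg_right hε1 (Nat.cast_nonneg _)
      linarith
  rw [not_le] at hε1
  obtain ⟨C₁, hC₁⟩ := hU ε hε
  obtain ⟨C₂, hC₂⟩ := hU (ε / 2) (by positivity)
  obtain ⟨B, hB⟩ := exists_nat_gt (8 / ε ^ 3)
  have hBε : 8 ≤ ε ^ 3 * B := by
    rw [div_lt_iff₀ (by positivity)] at hB
    linarith
  have hε2 : ε ^ 2 ≤ ε := by nlinarith
  have hε3 : ε ^ 3 ≤ ε ^ 2 := by nlinarith [sq_nonneg ε]
  refine ⟨max (max C₁ C₂) (B + 2), fun n i => ⟨?_, ?_⟩⟩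
  · intro h1 h2 x hx
    have hiC : C₁ ≤ i := (le_max_left _ _).trans ((le_max_left _ _).trans h1)
    have hiB : B + 2 ≤ i := (le_max_right _ _).trans h1
    have hiBR : (B : ℝ) + 2 ≤ i := by exact_mod_cast hiB
    have hB0 : (0 : ℝ) ≤ B := Nat.cast_nonneg _
    have hi1 : 1 ≤ i := by omega
    have hnR : (0 : ℝ) ≤ n := Nat.cast_nonneg _
    have hin : (i : ℝ) < n := by nlinarith
    have hin' : i < n := by exact_mod_cast hin
    constructor
    · obtain ⟨-, G, hG⟩ := hL n i _ hi1 (hC₁ n i hiC h2)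
      have := hx.2 ⟨G, rfl⟩
      linarith
    · obtain ⟨G, rfl⟩ := hx.1
      have h3 := lam_le_rel G (i := i) (by omega) (by rw [Fintype.card_fin]; exact hin'.le)
      rw [Fintype.card_fin] at h3
      refine h3.trans (upper_real hε hin (by linarith) ?_ ?_)
      · -- n - i ≥ ε n ≥ ε B
        have a1 : ε * n ≤ n - i := by linarith
        have a2 : ε * B ≤ n - i := by nlinarith
        have a3 : ε ^ 3 * B ≤ ε * (ε * B) := by nlinarith
        nlinarith
      · have a3 : ε ^ 3 * B ≤ ε * B := by nlinarith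
        nlinarith
  · intro h1 h2 x hx
    have hC2' : C₂ ≤ n - i + 2 := by
      have := (le_max_right C₁ C₂).trans (le_max_left (max C₁ C₂) (B + 2))
      omega
    have hiB : B + 2 + i ≤ n := by
      have := le_max_right (max C₁ C₂) (B + 2)
      omega
    have hiBR : (B : ℝ) + 2 + i ≤ n := by exact_mod_cast hiB
    have hB0 : (0 : ℝ) ≤ B := Nat.cast_nonneg _
    have hi0 : (0 : ℝ) ≤ i := Nat.cast_nonneg _
    have hin : (i : ℝ) < n := by linarith
    have hin' : i < n := by exact_mod_cast hin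
    have hBn : (B : ℝ) ≤ n := by linarith
    have hεB : ε * B ≤ i := by nlinarith
    have a3 : ε ^ 3 * B ≤ ε * (ε * B) := by nlinarith
    have a4 : 8 ≤ ε * i := by nlinarith
    have a5 : 8 ≤ ε * B := by nlinarith
    have hi8 : (8 : ℝ) ≤ i := by nlinarith
    have hi1 : 8 ≤ i := by exact_mod_cast hi8
    constructor
    · obtain ⟨G, rfl⟩ := hx.1
      have h3 := le_lam_rel G (i := i) (by omega) (by rw [Fintype.card_fin]; exact hin'.le)
      rw [Fintype.card_fin] at h3
      have h4 := lower_real (N := n) (I := i) hε hin (by linarith) (by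
        have : ε ^ 2 * (i : ℝ) ≥ ε * (ε * i) := by nlinarith
        nlinarith)
      linarith
    · have hsub : ((n - i + 2 : ℕ) : ℝ) = (n : ℝ) - i + 2 := by
        rw [Nat.cast_add, Nat.cast_sub hin'.le]; norm_num
      have h3 : ((n - i + 2 : ℕ) : ℝ) ≤ (1 - ε / 2) * n := by
        rw [hsub]
        nlinarith
      have h4 := hC₂ n (n - i + 2) hC2' h3
      obtain ⟨G, hG⟩ := hC n (n - i + 1) _ (by omega) h4
      have e1 : n - (n - i + 1) + 1 = i := by omega
      rw [e1] at hG
      have h5 := hx.2 ⟨G, rfl⟩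
      rw [hsub] at hG
      have h6 := compl_real (N := n) (I := i) hε hε1 hin (by linarith) (by linarith)
        (by nlinarith)
      linarith

/-- the set of values of the `i`-th eigenvalue is finite and not empty -/
theorem eigSet_finite (i n : ℕ) : (eigSet i n).Finite :=
  Set.finite_range (fun G : SimpleGraph (Fin n) => lam G i)

theorem eigSet_nonempty (i n : ℕ) : (eigSet i n).Nonempty := ⟨lam ⊥ i, ⊥, rfl⟩

theorem exists_isGreatest (i n : ℕ) : ∃ x, IsGreatest (eigSet i n) x :=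
  ⟨_, (eigSet_nonempty i n).csSup_mem (eigSet_finite i n),
    fun _ hy => le_csSup (eigSet_finite i n).bddAbove hy⟩

theorem exists_isLeast (i n : ℕ) : ∃ x, IsLeast (eigSet i n) x :=
  ⟨_, (eigSet_nonempty i n).csInf_mem (eigSet_finite i n),
    fun _ hy => csInf_le (eigSet_finite i n).bddBelow hy⟩

end Pool.Agent.Lib.MP_b9b22b_co.Lin.H63
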