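import Pool.Agent.Lib.MP_b9b22b_co.Lin.Base

/-!
BLOCK: graphs on about `4 ^ a p (q - p)` vertices.
-/

set_option autoImplicit false

namespace Pool.Agent.Lib.MP_b9b22b_co.Lin.H63

open Finset

open scoped Classical in
theorem card_baseDec {k : ℕ} {R : Fin k → Fin k → Prop} {P s₀ : ℕ} [NeZero P]
    (h : BaseDec k R P s₀) :
    s₀ * (univ.filter fun x : Fin k × Fin k => R x.1 x.2).card = P - 1 := by
  obtain ⟨S, φ, hS, h1, h2⟩ := h
  have hcard : (S ×ˢ (univ.filter fun x : Fin k × Fin k => R x.1 x.2)).card =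
      (univ.erase (0 : ZMod P)).card := by
    refine Finset.card_bij (fun x _ => x.1 * (φ x.2.2 - φ x.2.1)) ?_ ?_ ?_
    · rintro ⟨s, a, b⟩ hx
      simp only [Finset.mem_product, Finset.mem_filter, Finset.mem_univ, true_and] at hx
      rw [Finset.mem_erase]
      exact ⟨h1 s hx.1 a b hx.2, Finset.mem_univ _⟩
    · rintro ⟨s, a, b⟩ hx ⟨s', a', b'⟩ hx' he
      simp only [Finset.mem_product, Finset.mem_filter, Finset.mem_univ, true_and] at hx hx'
      simp only [] at he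
      obtain ⟨y, hy, huniq⟩ := h2 (s * (φ b - φ a)) (h1 s hx.1 a b hx.2)
      have e1 := huniq (s, a, b) ⟨hx.1, hx.2, rfl⟩
      have e2 := huniq (s', a', b') ⟨hx'.1, hx'.2, he.symm⟩
      rw [e1, e2]
    · intro δ hδ
      rw [Finset.mem_erase] at hδ
      obtain ⟨y, ⟨hy1, hy2, hy3⟩, -⟩ := h2 δ hδ.1
      refine ⟨y, ?_, hy3⟩
      simp only [Finset.mem_product, Finset.mem_filter, Finset.mem_univ, true_and]
      exact ⟨hy1, hy2⟩
  rw [Finset.card_product, hS, Finset.card_erase_of_mem (Finset.mem_univ _), Finset.card_univ,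
    ZMod.card] at hcard
  exact hcard

theorem block (hT : TemplStatement) (hD : DecStatement) (hSys : SysStatement)
    (hG : GraphStatement) : BlockStatement := by
  classical
  intro p q hp hpq ε hε
  obtain ⟨T⟩ := hT p q hp hpq
  have hqp : 0 < q - p := Nat.sub_pos_of_lt hpq
  have hqpR : ((q - p : ℕ) : ℝ) = (q : ℝ) - p := Nat.cast_sub hpq.le
  set d : ℕ := p * (q - p) with hd
  have hdpos : 0 < d := Nat.mul_pos hp hqp
  have hdR : (d : ℝ) = p * ((q : ℝ) - p) := by rw [hd, Nat.cast_mul, hqpR]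
  have hdegZ : ∀ a, ∑ b, T.E a b ^ 2 = (d : ℤ) := by
    intro a
    rw [T.deg a, hd, Nat.cast_mul, Nat.cast_sub hpq.le]
  -- the number of edges
  have hedge : (univ.filter fun x : Fin T.k × Fin T.k => T.E x.1 x.2 ≠ 0).card = T.k * d := by
    have h1 : ((univ.filter fun x : Fin T.k × Fin T.k => T.E x.1 x.2 ≠ 0).card : ℤ) =
        ∑ a, ∑ b, T.E a b ^ 2 := by
      rw [Finset.card_filter, Nat.cast_sum, Fintype.sum_prod_type]
      refine Finset.sum_congr rfl fun a _ => Finset.sum_congr rfl fun b _ => ?_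
      rcases T.small a b with h | h | h <;> simp [h]
    simp_rw [hdegZ] at h1
    rw [Finset.sum_const, Finset.card_univ, Fintype.card_fin, nsmul_eq_mul] at h1
    exact_mod_cast h1
  have hex : ∃ a b, T.E a b ≠ 0 := by
    by_contra hcon
    push Not at hcon
    have h1 := hdegZ ⟨0, T.kpos⟩
    simp only [hcon] at h1
    simp at h1
    omega
  -- the prime
  obtain ⟨B, hB⟩ := exists_nat_gt (1 / ε)
  obtain ⟨P, s₀, hP, hBP, hbase⟩ := hD T.k (fun x y => T.E x y ≠ 0)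
    (fun a b h => by rw [T.symm b a]; exact h) (fun a h => h (T.diag a)) hex (B + 1)
  have : NeZero P := ⟨hP.ne_zero⟩
  have hcount := card_baseDec hbase
  have hcount' : s₀ * (T.k * d) = P - 1 := by
    rw [← hedge]
    convert hcount
  have hP1 : 1 < P := hP.one_lt
  set D : ℕ := Nat.factorial (P - 1) with hDdef
  have hDpos : 0 < D := Nat.factorial_pos _
  have hPR : ((P - 1 : ℕ) : ℝ) = (P : ℝ) - 1 := by rw [Nat.cast_sub hP1.le]; simp
  have hPRpos : (0 : ℝ) < (P : ℝ) - 1 := by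
    have : (1 : ℝ) < P := by exact_mod_cast hP1
    linarith
  have hBP' : 1 / ε < (P : ℝ) - 1 := by
    have : ((B + 1 : ℕ) : ℝ) < P := by exact_mod_cast hBP
    push_cast at this
    linarith
  -- the threshold
  obtain ⟨a₀, ha₀⟩ := exists_nat_gt (((P : ℝ) - 1) * D * (2 / ε + 1))
  refine ⟨a₀, fun a ha => ?_⟩
  have hN : ((P : ℝ) - 1) * D * (2 / ε + 1) < 2 ^ a := by
    have h1 : (a : ℝ) < 2 ^ a := by exact_mod_cast Nat.lt_two_pow_self
    have h2 : (a₀ : ℝ) ≤ a := by exact_mod_cast ha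
    linarith
  have hDR : (1 : ℝ) ≤ D := by exact_mod_cast hDpos
  have hdR1 : (1 : ℝ) ≤ d := by exact_mod_cast hdpos
  have hεinv : 0 < 2 / ε := by positivity
  have hN1 : ((P : ℝ) - 1) * D ≤ 2 ^ a * d := by
    have h1 : ((P : ℝ) - 1) * D ≤ ((P : ℝ) - 1) * D * (2 / ε + 1) := by
      have : 0 ≤ ((P : ℝ) - 1) * D := by positivity
      nlinarith
    have h2 : (2 : ℝ) ^ a ≤ 2 ^ a * d := by
      have : (0 : ℝ) < 2 ^ a := by positivity
      nlinarith
    linarith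
  have hN2 : ((P : ℝ) - 1) * D ≤ ε / 2 * (2 ^ a * d) := by
    have h1 : ((P : ℝ) - 1) * D * (2 / ε) ≤ 2 ^ a := by
      have : 0 ≤ ((P : ℝ) - 1) * D := by positivity
      nlinarith
    have h2 : (2 : ℝ) ^ a ≤ 2 ^ a * d := by
      have : (0 : ℝ) < 2 ^ a := by positivity
      nlinarith
    have h3 : ((P : ℝ) - 1) * D * (2 / ε) ≤ 2 ^ a * d := h1.trans h2
    calc ((P : ℝ) - 1) * D = ε / 2 * (((P : ℝ) - 1) * D * (2 / ε)) := by field_simp
      _ ≤ _ := mul_le_mul_of_nonneg_left h3 (by positivity)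
  have hN1' : (P - 1) * D ≤ 2 ^ a * d := by
    have : (((P - 1) * D : ℕ) : ℝ) ≤ ((2 ^ a * d : ℕ) : ℝ) := by
      push_cast [hPR]
      exact hN1
    exact_mod_cast this
  -- the choice of m
  set l : ℕ := (2 ^ a * d - (P - 1)) / ((P - 1) * D) with hl
  set m : ℕ := 1 + D * l with hm
  have hPDpos : 0 < (P - 1) * D := Nat.mul_pos (by omega) hDpos
  have hPle : P - 1 ≤ 2 ^ a * d := (Nat.le_mul_of_pos_right _ hDpos).trans hN1'
  have hmle : m * (P - 1) ≤ 2 ^ a * d := by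
    have h1 : (P - 1) * D * l ≤ 2 ^ a * d - (P - 1) := Nat.mul_div_le _ _
    have h2 : m * (P - 1) = (P - 1) + (P - 1) * D * l := by rw [hm]; ring
    omega
  have hmge : 2 ^ a * d ≤ m * (P - 1) + (P - 1) * D := by
    have h1 : 2 ^ a * d - (P - 1) < (P - 1) * D * (l + 1) := Nat.lt_mul_div_succ _ hPDpos
    have h2 : m * (P - 1) = (P - 1) + (P - 1) * D * l := by rw [hm]; ring
    have h3 : (P - 1) * D * (l + 1) = (P - 1) * D * l + (P - 1) * D := by ring
    omega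
  have hcop : Nat.Coprime m D := by
    rw [hm]
    simp
  have hmpos : 0 < m := by omega
  have hsys := hSys T.k (fun x y => T.E x y ≠ 0) P m s₀ hP hmpos hcop hbase
  have hport : m * s₀ * T.k ≤ 2 ^ a := by
    have h1 : m * s₀ * T.k * d = m * (P - 1) := by rw [← hcount']; ring
    have h2 : m * s₀ * T.k * d ≤ 2 ^ a * d := by rw [h1]; exact hmle
    exact Nat.le_of_mul_le_mul_right h2 hdpos
  have hbig := hG p q T (P * m) (s₀ * P * m ^ 2) (m * s₀ * T.k) a hsys hport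
  refine ⟨P * m * 2 ^ a, s₀ * P * m ^ 2 * T.w, ?_, ?_, hbig⟩
  · -- the number of vertices
    have h1 : (m : ℝ) * ((P : ℝ) - 1) ≤ 2 ^ a * d := by
      have : ((m * (P - 1) : ℕ) : ℝ) ≤ ((2 ^ a * d : ℕ) : ℝ) := by exact_mod_cast hmle
      push_cast [hPR] at this
      exact this
    have h2 : (4 : ℝ) ^ a = 2 ^ a * 2 ^ a := by
      rw [← mul_pow]; norm_num
    have h3 : (P : ℝ) ≤ (1 + ε) * ((P : ℝ) - 1) := by
      have : 1 ≤ ε * ((P : ℝ) - 1) := by
        rw [div_lt_iff₀ hε] at hBP'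
        linarith
      linarith
    push_cast
    rw [h2, ← hdR]
    have h4 : (0 : ℝ) ≤ (m : ℝ) * 2 ^ a := by positivity
    calc (P : ℝ) * m * 2 ^ a = (m * 2 ^ a) * P := by ring
      _ ≤ (m * 2 ^ a) * ((1 + ε) * ((P : ℝ) - 1)) := mul_le_mul_of_nonneg_left h3 h4
      _ = ((1 + ε) * 2 ^ a) * (m * ((P : ℝ) - 1)) := by ring
      _ ≤ ((1 + ε) * 2 ^ a) * (2 ^ a * d) := mul_le_mul_of_nonneg_left h1 (by positivity)
      _ = (1 + ε) * (2 ^ a * 2 ^ a) * d := by ring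
  · -- the dimension
    have h1 : (1 - ε / 2) * (2 ^ a * d) ≤ (m : ℝ) * ((P : ℝ) - 1) := by
      have : ((2 ^ a * d : ℕ) : ℝ) ≤ ((m * (P - 1) + (P - 1) * D : ℕ) : ℝ) := by
        exact_mod_cast hmge
      push_cast [hPR] at this
      linarith
    have h2 : (4 : ℝ) ^ a = 2 ^ a * 2 ^ a := by
      rw [← mul_pow]; norm_num
    have hqR : (0 : ℝ) < q := by exact_mod_cast (hp.trans hpq)
    have hpR : (0 : ℝ) < p := by exact_mod_cast hp
    have hcR : (s₀ : ℝ) * (T.k * d) = (P : ℝ) - 1 := by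
      rw [← hPR, ← hcount']; push_cast; ring
    have hwR : (q : ℝ) * T.w = p * T.k := by exact_mod_cast T.card
    -- the number times q d
    have h3 : ((s₀ * P * m ^ 2 * T.w : ℕ) : ℝ) * (q * d) = (p : ℝ) * (((P : ℝ) - 1) * P * m ^ 2) := by
      push_cast
      have c1 : (s₀ : ℝ) * P * (m : ℝ) ^ 2 * T.w * (q * d) =
          (s₀ : ℝ) * P * (m : ℝ) ^ 2 * d * ((q : ℝ) * T.w) := by ring
      have c2 : (s₀ : ℝ) * P * (m : ℝ) ^ 2 * d * ((p : ℝ) * T.k) =
          (p : ℝ) * (((s₀ : ℝ) * (T.k * d)) * P * (m : ℝ) ^ 2) := by ring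
      rw [c1, hwR, c2, hcR]
    have h4 : ((m : ℝ) * ((P : ℝ) - 1)) ^ 2 ≤ ((P : ℝ) - 1) * P * m ^ 2 := by
      have : (0 : ℝ) ≤ (m : ℝ) ^ 2 * ((P : ℝ) - 1) := by positivity
      nlinarith
    have h5 : (1 - ε) * (2 ^ a * d) ^ 2 ≤ ((m : ℝ) * ((P : ℝ) - 1)) ^ 2 := by
      by_cases hε1 : ε ≤ 1
      · have h6 : 0 ≤ (1 - ε / 2) * (2 ^ a * (d : ℝ)) := by
          have : (0 : ℝ) ≤ 1 - ε / 2 := by linarith
          positivity
        have h7 := pow_le_pow_left₀ h6 h1 2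
        have h8 : (1 - ε) * (2 ^ a * (d : ℝ)) ^ 2 ≤ ((1 - ε / 2) * (2 ^ a * d)) ^ 2 := by
          have : (0 : ℝ) ≤ (2 ^ a * (d : ℝ)) ^ 2 := by positivity
          nlinarith [sq_nonneg ε]
        exact h8.trans h7
      · have h6 : (1 - ε) * (2 ^ a * (d : ℝ)) ^ 2 ≤ 0 :=
          mul_nonpos_of_nonpos_of_nonneg (by linarith) (by positivity)
        exact h6.trans (by positivity)
    rw [h2, ← hdR]
    have hqd : (0 : ℝ) < q * d := by positivity
    rw [← mul_le_mul_iff_left₀ hqd, h3]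
    calc (1 - ε) * (2 ^ a * 2 ^ a) * d * (p / q) * (q * d) =
        p * ((1 - ε) * (2 ^ a * d) ^ 2) := by field_simp
      _ ≤ p * (((m : ℝ) * ((P : ℝ) - 1)) ^ 2) := mul_le_mul_of_nonneg_left h5 hpR.le
      _ ≤ p * (((P : ℝ) - 1) * P * m ^ 2) := mul_le_mul_of_nonneg_left h4 hpR.le

end Pool.Agent.Lib.MP_b9b22b_co.Lin.H63
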