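import Pool.Agent.Lib.MP_b9b22b_co.Lin.Base

/-!
DEC: decompositions of complete graphs of prime order.
-/

set_option autoImplicit false

namespace Pool.Agent.Lib.MP_b9b22b_co.Lin.H63

open Finset

theorem chi_neg_one {P e : ℕ} [Fact P.Prime] (he : 0 < e) (hdvd : 2 * e ∣ P - 1)
    (χ : MulChar (ZMod P) ℂ) (hχ : orderOf χ = e) : χ (-1) = 1 := by
  obtain ⟨g, hg⟩ := IsCyclic.exists_ofOrder_eq_natCard (α := (ZMod P)ˣ)
  have hcard : Nat.card (ZMod P)ˣ = P - 1 := by
    rw [Nat.card_eq_fintype_card, ZMod.card_units]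
  obtain ⟨l, hl⟩ := hdvd
  have hP1 : 0 < P - 1 := by
    have := (Fact.out : P.Prime).one_lt
    omega
  have hlpos : 0 < l := by
    rcases Nat.eq_zero_or_pos l with h | h
    · rw [h, mul_zero] at hl; omega
    · exact h
  have hord : orderOf (g ^ l) = 2 * e := by
    rw [orderOf_pow_of_dvd hlpos.ne', hg, hcard, hl, Nat.mul_div_cancel _ hlpos]
    rw [hg, hcard, hl]
    exact Dvd.intro_left _ rfl
  have h1 : ((g ^ l) ^ e) ^ 2 = 1 := by
    rw [← pow_mul, mul_comm e 2, ← hord, pow_orderOf_eq_one]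
  have h2 : (g ^ l) ^ e ≠ 1 := by
    intro h
    have := orderOf_dvd_of_pow_eq_one h
    rw [hord] at this
    have := Nat.le_of_dvd he this
    omega
  have h3 : (((g ^ l) ^ e : (ZMod P)ˣ) : ZMod P) = -1 := by
    have h4 : (((g ^ l) ^ e : (ZMod P)ˣ) : ZMod P) ^ 2 = 1 := by
      rw [← Units.val_pow_eq_pow_val, h1, Units.val_one]
    rcases sq_eq_one_iff.1 h4 with h5 | h5
    · exact absurd (Units.ext (by rw [h5, Units.val_one])) h2
    · exact h5
  rw [← h3, Units.val_pow_eq_pow_val, map_pow, ← MulChar.pow_apply_coe, ← hχ, pow_orderOf_eq_one,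
    MulChar.one_apply_coe]

theorem dec (hE : EmbStatement) : DecStatement := by
  classical
  rintro k R hsymm hirr ⟨a₀, b₀, hab₀⟩ B
  -- the edges
  let Ed : Finset (Fin k × Fin k) := univ.filter fun x => x.1 < x.2 ∧ R x.1 x.2
  have hmem : ∀ a b, (a, b) ∈ Ed ↔ a < b ∧ R a b := by
    intro a b; simp [Ed]
  have hEd : ∀ a b, R a b → (a, b) ∈ Ed ∨ (b, a) ∈ Ed := by
    intro a b h
    rcases lt_trichotomy a b with h1 | h1 | h1
    · exact Or.inl ((hmem a b).2 ⟨h1, h⟩)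
    · exact absurd (h1 ▸ h) (hirr b)
    · exact Or.inr ((hmem b a).2 ⟨h1, hsymm a b h⟩)
  set e : ℕ := Ed.card with hedef
  have he : 0 < e := by
    rw [hedef, Finset.card_pos]
    rcases hEd a₀ b₀ hab₀ with h | h
    · exact ⟨_, h⟩
    · exact ⟨_, h⟩
  let ι : Ed ≃ Fin e := Ed.equivFin
  let κ : Fin k → Fin k → ℕ := fun i j => if h : (i, j) ∈ Ed then (ι ⟨(i, j), h⟩ : ℕ) else 0
  have hκ : ∀ i j (h : (i, j) ∈ Ed), κ i j = (ι ⟨(i, j), h⟩ : ℕ) := by
    intro i j h
    simp only [κ, dif_pos h]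
  have hκlt : ∀ i j, (i, j) ∈ Ed → κ i j < e := by
    intro i j h
    rw [hκ i j h]
    exact (ι ⟨(i, j), h⟩).2
  have hκinj : ∀ i j i' j', (i, j) ∈ Ed → (i', j') ∈ Ed → κ i j = κ i' j' → i = i' ∧ j = j' := by
    intro i j i' j' h h' heq
    rw [hκ i j h, hκ i' j' h'] at heq
    have h1 := ι.injective (Fin.ext heq)
    have h2 := congrArg Subtype.val h1
    exact ⟨congrArg Prod.fst h2, congrArg Prod.snd h2⟩
  obtain ⟨P₀, hP₀⟩ := hE e k he 1 one_pos
  obtain ⟨P, hP, hPB, hmod⟩ := Nat.exists_prime_gt_modEq_one (k := 2 * e) (max B P₀) (by omega)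
  have hfact : Fact P.Prime := ⟨hP⟩
  have hP1 : 1 < P := hP.one_lt
  have hdvd : 2 * e ∣ P - 1 := (Nat.modEq_iff_dvd' hP1.le).1 hmod.symm
  have hodd : P % 2 = 1 := by
    have : 2 ∣ P - 1 := (Dvd.intro e rfl).trans hdvd
    omega
  have hNZ : NeZero e := ⟨he.ne'⟩
  have hω := Complex.isPrimitiveRoot_exp e he.ne'
  set ω : ℂ := Complex.exp (2 * Real.pi * Complex.I / e) with hωdef
  obtain ⟨χ, hχ⟩ := MulChar.exists_mulChar_orderOf (ZMod P) (n := e)
    (by rw [ZMod.card]; exact (Dvd.intro_left 2 rfl).trans hdvd) hω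
  have hχ1 := chi_neg_one he hdvd χ hχ
  obtain ⟨φ, -, hφ⟩ := hP₀ P ((le_max_right B P₀).trans hPB.le) χ ω hχ hω κ (fun _ => univ)
    (by intro i; rw [Finset.card_univ, ZMod.card, one_mul])
  have hω0 : ∀ m : ℕ, ω ^ m ≠ 0 := fun m => pow_ne_zero _ (hω.ne_zero he.ne')
  have hχ0 : χ 0 = 0 := MulChar.map_zero χ
  -- colours of the edges
  have hcol : ∀ a b, (a, b) ∈ Ed → χ (φ b - φ a) = ω ^ κ a b :=
    fun a b h => hφ a b ((hmem a b).1 h).1
  have hcol' : ∀ a b, (b, a) ∈ Ed → χ (φ b - φ a) = ω ^ κ b a := by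
    intro a b h
    have h1 : φ b - φ a = -1 * (φ a - φ b) := by ring
    rw [h1, map_mul, hχ1, one_mul, hcol b a h]
  have hne : ∀ a b, R a b → φ b - φ a ≠ 0 := by
    intro a b h h0
    rcases hEd a b h with h1 | h1
    · have := hcol a b h1
      rw [h0, hχ0] at this
      exact hω0 _ this.symm
    · have := hcol' a b h1
      rw [h0, hχ0] at this
      exact hω0 _ this.symm
  let S : Finset (ZMod P) := univ.filter fun u => χ u = 1 ∧ 2 * u.val < P
  have hS : ∀ u, u ∈ S ↔ χ u = 1 ∧ 2 * u.val < P := by intro u; simp [S]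
  have hS0 : ∀ u ∈ S, u ≠ 0 := by
    intro u hu h0
    have := ((hS u).1 hu).1
    rw [h0, hχ0] at this
    exact zero_ne_one this
  have hSneg : ∀ u : ZMod P, χ u = 1 → u ≠ 0 → (u ∈ S ↔ -u ∉ S) := by
    intro u hu hu0
    have hv : (-u).val = P - u.val := by
      rw [ZMod.neg_val, if_neg hu0]
    have hlt := ZMod.val_lt u
    have hχn : χ (-u) = 1 := by
      have : -u = -1 * u := by ring
      rw [this, map_mul, hχ1, hu, one_mul]
    rw [hS, hS, hu, hχn, hv]
    constructor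
    · rintro ⟨-, h1⟩ ⟨-, h2⟩
      omega
    · intro h
      refine ⟨rfl, ?_⟩
      by_contra h1
      exact h ⟨rfl, by omega⟩
  refine ⟨P, S.card, hP, (le_max_left B P₀).trans_lt hPB, S, φ, rfl, ?_, ?_⟩
  · intro s hs a b hab
    exact mul_ne_zero (hS0 s hs) (hne a b hab)
  · intro δ hδ
    -- the colour of δ
    have hχδ : χ δ ^ e = 1 := by
      rw [← MulChar.pow_apply' χ he.ne', ← hχ, pow_orderOf_eq_one,
        MulChar.one_apply hδ.isUnit]
    obtain ⟨l, hle, hl⟩ := hω.eq_pow_of_pow_eq_one hχδ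
    obtain ⟨⟨i, j⟩, hij⟩ : ∃ x : Fin k × Fin k, x ∈ Ed ∧ κ x.1 x.2 = l := by
      refine ⟨(ι.symm ⟨l, hle⟩).1, (ι.symm ⟨l, hle⟩).2, ?_⟩
      have : ((ι.symm ⟨l, hle⟩).1.1, (ι.symm ⟨l, hle⟩).1.2) ∈ Ed := (ι.symm ⟨l, hle⟩).2
      rw [hκ _ _ this]
      have h2 : (⟨((ι.symm ⟨l, hle⟩).1.1, (ι.symm ⟨l, hle⟩).1.2), this⟩ : Ed) =
        ι.symm ⟨l, hle⟩ := rfl
      rw [h2, Equiv.apply_symm_apply]
    obtain ⟨hijE, hijl⟩ := hij
    simp only [] at hijl
    have hlt := (hmem i j).1 hijE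
    have hd0 : φ j - φ i ≠ 0 := hne i j hlt.2
    set u : ZMod P := δ / (φ j - φ i) with hu
    have hud : u * (φ j - φ i) = δ := div_mul_cancel₀ _ hd0
    have hχu : χ u = 1 := by
      have h0 : χ (φ j - φ i) = ω ^ l := by rw [hcol i j hijE, hijl]
      have h1 : χ u * ω ^ l = ω ^ l := by
        rw [← h0, ← map_mul, hud, h0, hl]
      exact mul_right_cancel₀ (hω0 l) (by rw [h1, one_mul])
    have hu0 : u ≠ 0 := by
      intro h
      rw [h, zero_mul] at hud
      exact hδ hud.symm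
    -- every solution comes from the edge i, j
    have key : ∀ x : ZMod P × Fin k × Fin k,
        x.1 ∈ S ∧ R x.2.1 x.2.2 ∧ x.1 * (φ x.2.2 - φ x.2.1) = δ →
          (u ∈ S ∧ x = (u, i, j)) ∨ (-u ∈ S ∧ x = (-u, j, i)) := by
      rintro ⟨s, a, b⟩ ⟨hs, hab, hx⟩
      simp only [] at hs hab hx
      have hχs := ((hS s).1 hs).1
      rcases hEd a b hab with h1 | h1
      · have h2 : ω ^ l = ω ^ κ a b := by
          rw [hl, ← hx, map_mul, hχs, one_mul, hcol a b h1]
        have h3 := hω.pow_inj hle (hκlt a b h1) h2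
        obtain ⟨h4, h5⟩ := hκinj a b i j h1 hijE (by rw [← h3, hijl])
        subst h4 h5
        have h6 : s = u := mul_right_cancel₀ hd0 (by rw [hx, hud])
        left
        rw [← h6]
        exact ⟨hs, rfl⟩
      · have h2 : ω ^ l = ω ^ κ b a := by
          rw [hl, ← hx, map_mul, hχs, one_mul, hcol' a b h1]
        have h3 := hω.pow_inj hle (hκlt b a h1) h2
        obtain ⟨h4, h5⟩ := hκinj b a i j h1 hijE (by rw [← h3, hijl])
        subst h4 h5
        have h6 : s = -u := by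
          apply mul_right_cancel₀ hd0
          have h7 : s * (φ a - φ b) = -(s * (φ b - φ a)) := by ring
          rw [h7, hx, neg_mul, hud]
        right
        rw [← h6]
        exact ⟨hs, rfl⟩
    by_cases huS : u ∈ S
    · refine ⟨(u, i, j), ⟨huS, hlt.2, hud⟩, ?_⟩
      intro x hx
      rcases key x hx with h | h
      · exact h.2
      · exact absurd h.1 ((hSneg u hχu hu0).1 huS)
    · have huS' : -u ∈ S := by
        by_contra h
        exact huS ((hSneg u hχu hu0).2 h)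
      refine ⟨(-u, j, i), ⟨huS', hsymm i j hlt.2, ?_⟩, ?_⟩
      · change -u * (φ i - φ j) = δ
        rw [← hud]; ring
      · intro x hx
        rcases key x hx with h | h
        · exact absurd h.1 huS
        · exact h.2

end Pool.Agent.Lib.MP_b9b22b_co.Lin.H63
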