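import Pool.Agent.Lib.MP_b9b22b_co.Lin.Base

/-!
MIX: mixing for multiplicative characters.
-/

set_option autoImplicit false

namespace Pool.Agent.Lib.MP_b9b22b_co.Lin.H63

open Finset

variable {P : ℕ} [Fact P.Prime]

theorem chi_mul_inv (χ : MulChar (ZMod P) ℂ) {a : ZMod P} (ha : a ≠ 0) : χ a * χ⁻¹ a = 1 := by
  rw [← MulChar.mul_apply, mul_inv_cancel, MulChar.one_apply ha.isUnit]

theorem corr_ne (χ : MulChar (ZMod P) ℂ) (hχ : χ ≠ 1) {y y' : ZMod P} (h : y ≠ y') :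
    ∑ x, χ (y - x) * χ⁻¹ (y' - x) = -1 := by
  have hδ : y - y' ≠ 0 := sub_ne_zero.2 h
  let e : ZMod P ≃ ZMod P := (Equiv.mulLeft₀ (y - y') hδ).trans (Equiv.subLeft y)
  have he : ∀ z, e z = y - (y - y') * z := fun z => rfl
  rw [← e.sum_comp]
  have h1 : ∀ z, χ (y - e z) * χ⁻¹ (y' - e z) =
      (χ (y - y') * χ⁻¹ (y - y')) * χ⁻¹ (-1) * (χ z * χ⁻¹ (1 - z)) := by
    intro z
    have a1 : y - e z = (y - y') * z := by rw [he]; ring
    have a2 : y' - e z = (y - y') * (-1 * (1 - z)) := by rw [he]; ring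
    rw [a1, a2, map_mul, map_mul, map_mul]
    ring
  simp_rw [h1]
  rw [← Finset.mul_sum, chi_mul_inv χ hδ, one_mul]
  have h2 : ∑ z, χ z * χ⁻¹ (1 - z) = -χ (-1) := jacobiSum_nontrivial_inv hχ
  rw [h2]
  have h3 : χ (-1) * χ⁻¹ (-1) = 1 := chi_mul_inv χ (neg_ne_zero.2 one_ne_zero)
  linear_combination -h3

theorem corr_eq (χ : MulChar (ZMod P) ℂ) (y : ZMod P) :
    ∑ x, χ (y - x) * χ⁻¹ (y - x) = (P : ℂ) - 1 := by
  have h1 : ∀ x : ZMod P, χ (y - x) * χ⁻¹ (y - x) = 1 - (if x = y then 1 else 0) := by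
    intro x
    by_cases h : x = y
    · subst h
      rw [sub_self, if_pos rfl, MulChar.map_zero]
      ring
    · rw [chi_mul_inv χ (sub_ne_zero.2 (fun h' => h h'.symm)), if_neg h, sub_zero]
  simp_rw [h1]
  rw [Finset.sum_sub_distrib, Finset.sum_ite_eq' univ y, if_pos (Finset.mem_univ y)]
  simp [ZMod.card]

theorem mix : MixStatement := by
  intro P hP χ hχ X Y
  let g : ZMod P → ℂ := fun x => ∑ y ∈ Y, χ (y - x)
  have h1 : ∑ x, ‖g x‖ ^ 2 = (P : ℝ) * Y.card - (Y.card : ℝ) ^ 2 := by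
    have h2 : ((∑ x, ‖g x‖ ^ 2 : ℝ) : ℂ) = (P : ℂ) * Y.card - (Y.card : ℂ) ^ 2 := by
      rw [Complex.ofReal_sum]
      have e1 : ∀ x, ((‖g x‖ ^ 2 : ℝ) : ℂ) = ∑ y ∈ Y, ∑ y' ∈ Y, χ (y - x) * χ⁻¹ (y' - x) := by
        intro x
        rw [← Finset.sum_mul_sum]
        have e2 : ∑ y' ∈ Y, χ⁻¹ (y' - x) = star (g x) := by
          rw [show g x = ∑ y ∈ Y, χ (y - x) from rfl, star_sum]
          refine Finset.sum_congr rfl fun y _ => ?_
          rw [MulChar.star_apply']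
        rw [e2]
        change _ = g x * star (g x)
        rw [Complex.star_def, Complex.mul_conj, Complex.normSq_eq_norm_sq]
      simp_rw [e1]
      rw [Finset.sum_comm]
      have e3 : ∀ y ∈ Y, ∑ x, ∑ y' ∈ Y, χ (y - x) * χ⁻¹ (y' - x) = (P : ℂ) - Y.card := by
        intro y hy
        rw [Finset.sum_comm]
        have e4 : ∀ y' ∈ Y, ∑ x, χ (y - x) * χ⁻¹ (y' - x) = (if y' = y then (P : ℂ) else 0) - 1 := by
          intro y' _
          by_cases h : y' = y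
          · subst h
            rw [corr_eq, if_pos rfl]
          · rw [corr_ne χ hχ (fun h' => h h'.symm), if_neg h]
            ring
        rw [Finset.sum_congr rfl e4, Finset.sum_sub_distrib, Finset.sum_ite_eq' Y y, if_pos hy]
        simp
      rw [Finset.sum_congr rfl e3, Finset.sum_const, nsmul_eq_mul]
      ring
    exact_mod_cast h2
  have h2 : ‖∑ x ∈ X, g x‖ ^ 2 ≤ X.card * ∑ x ∈ X, ‖g x‖ ^ 2 := by
    have h3 := norm_sum_le X g
    have h4 : ‖∑ x ∈ X, g x‖ ^ 2 ≤ (∑ x ∈ X, ‖g x‖) ^ 2 := by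
      gcongr
    exact h4.trans sq_sum_le_card_mul_sum_sq
  have h3 : ∑ x ∈ X, ‖g x‖ ^ 2 ≤ ∑ x, ‖g x‖ ^ 2 :=
    Finset.sum_le_sum_of_subset_of_nonneg (Finset.subset_univ X) fun x _ _ => sq_nonneg _
  rw [h1] at h3
  have h4 : (X.card : ℝ) * ∑ x ∈ X, ‖g x‖ ^ 2 ≤ X.card * ((P : ℝ) * Y.card - (Y.card : ℝ) ^ 2) :=
    mul_le_mul_of_nonneg_left h3 (Nat.cast_nonneg _)
  have h5 : (0 : ℝ) ≤ X.card * (Y.card : ℝ) ^ 2 := by positivity
  calc ‖∑ x ∈ X, ∑ y ∈ Y, χ (y - x)‖ ^ 2 ≤ X.card * ∑ x ∈ X, ‖g x‖ ^ 2 := h2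
    _ ≤ _ := h4
    _ ≤ (P : ℝ) * X.card * Y.card := by nlinarith

end Pool.Agent.Lib.MP_b9b22b_co.Lin.H63
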